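import Pool.Agent.U389.FR.Main

set_option autoImplicit false
set_option linter.unusedSectionVars false

/-!
The main theorem on circuit covers.
-/

namespace Pool.Agent.U389.FR

open Finset
open scoped Classical
open Pool.Agent.H126R2.CDC (MGraph IsFl isFl_iff)
open Pool.Agent.H126R2.NC (InLat InIntCone TC)
open Pool.Agent.W831.ECC (RCone intCone_add intCone_even intCone_zero cover_tc parity_of_lat
  bridgeless_of_lat)

variable {V E : Type} [Fintype V] [DecidableEq V] [Fintype E] [DecidableEq E]

/-- Every weighting in the lattice of the circuits of a graph of treewidth at most `k` which stays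
in the cone of the circuits after subtracting `2 ^ (4 k + 5)` from all its values has a circuit
cover. -/
theorem deep_tw (G : MGraph V E) {k : ℕ} (hk : 1 ≤ k) {N : Type} [Fintype N] (D : TreeDec G k N)
    (p : E → ℕ) (hlat : InLat G p) (L : ℝ) (hL : (2 : ℝ) ^ (4 * k + 5) ≤ L)
    (hc : RCone G (fun e => (p e : ℝ) - L)) : InIntCone G p := by
  have hL0 : 0 < L := lt_of_lt_of_le (by positivity) hL
  have hpos : ∀ e, 0 < p e := by
    intro e
    have h1 := hc.nonneg e
    have h2 : (0 : ℝ) < p e := by linarith
    exact_mod_cast h2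
  have hbr := bridgeless_of_lat G p hlat hpos
  have hpar := parity_of_lat G p hlat
  obtain ⟨v, hv⟩ := G.exists_halves
  obtain ⟨ι, _, τ, ht1, ht2⟩ := rounding G hbr hv hk D _ hc
  -- numerical facts
  set a : ℝ := 2 ^ (2 * k + 2) with ha
  set b : ℝ := 2 ^ (4 * k + 3) with hb
  have ha16 : (16 : ℝ) ≤ a := by
    rw [ha]
    calc (16 : ℝ) = 2 ^ 4 := by norm_num
      _ ≤ 2 ^ (2 * k + 2) := pow_le_pow_right₀ (by norm_num) (by omega)
  have hab : 2 * b = a ^ 2 := by
    rw [ha, hb, ← pow_mul, ← pow_succ']
    congr 1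
    ring
  have hL' : 4 * b ≤ L := by
    refine le_trans (le_of_eq ?_) hL
    rw [hb, show 4 * k + 5 = (4 * k + 3) + 2 by ring, pow_add]
    ring
  have hLb : b + 17 * a + 9 ≤ L := by
    have : 17 * a + 9 ≤ 3 * b := by nlinarith
    linarith
  set q : E → ℕ := fun e => cnt (fun j => τ j e = 1) with hq
  have hq2 : ∀ e, |(2 * q e : ℝ) - ((p e : ℝ) - L + b)| ≤ a := by
    intro e
    have h1 := ht2 e
    have h2 : (2 * q e : ℝ) - ((p e : ℝ) - L + b) =
        2 * ((q e : ℝ) - (((p e : ℝ) - L) / 2 + 2 ^ (4 * k + 2))) := by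
      rw [hb, show 4 * k + 3 = (4 * k + 2) + 1 by ring, pow_succ]
      ring
    rw [h2, abs_mul, abs_of_pos (by norm_num : (0 : ℝ) < 2)]
    have h3 : a = 2 * 2 ^ (2 * k + 1) := by
      rw [ha, show 2 * k + 2 = (2 * k + 1) + 1 by ring, pow_succ]
      ring
    rw [h3]
    exact mul_le_mul_of_nonneg_left h1 (by norm_num)
  set W : Finset E := univ.filter fun e => Odd (p e) with hW
  have hle : ∀ e, 2 * q e + (if e ∈ W then 1 else 0) ≤ p e := by
    intro e
    have h1 := (abs_le.mp (hq2 e)).2
    have h5 : ((if e ∈ W then (1 : ℕ) else 0 : ℕ) : ℝ) ≤ 1 := by split_ifs <;> simp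
    have h4 : ((2 * q e + (if e ∈ W then 1 else 0) : ℕ) : ℝ) ≤ p e := by
      push_cast
      push_cast at h5
      linarith
    exact_mod_cast h4
  set r : E → ℕ := fun e => p e - (2 * q e + (if e ∈ W then 1 else 0)) with hr
  have hrreal : ∀ e, (r e : ℝ) = p e - 2 * q e - (if e ∈ W then 1 else 0) := by
    intro e
    simp only [hr]
    rw [Nat.cast_sub (hle e)]
    push_cast
    ring
  have hrlo : ∀ e, L - b - a - 1 ≤ r e := by
    intro e
    rw [hrreal e]
    have h1 := (abs_le.mp (hq2 e)).2
    have h5 : (if e ∈ W then (1 : ℝ) else 0) ≤ 1 := by split_ifs <;> norm_num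
    linarith
  have hrhi : ∀ e, (r e : ℝ) ≤ L - b + a := by
    intro e
    rw [hrreal e]
    have h1 := (abs_le.mp (hq2 e)).1
    have h5 : (0 : ℝ) ≤ (if e ∈ W then (1 : ℝ) else 0) := by split_ifs <;> norm_num
    linarith
  have hqtc : ∀ e f, TC (fun e => v (e, false)) (fun e => v (e, true)) e f → q e = q f := by
    intro e f hef
    simp only [hq]
    congr 1
    funext j
    rw [Sp_tc (ht1 j) hef]
  have hres : InIntCone G r := by
    refine cover_tc G r ?_ ?_ hbr v hv ?_
    · intro e
      have h1 : p e = r e + (2 * q e + (if e ∈ W then 1 else 0)) := by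
        simp only [hr]; have := hle e; omega
      by_cases h3 : e ∈ W
      · have h4 : Odd (p e) := (Finset.mem_filter.1 h3).2
        rw [if_pos h3] at h1
        rw [Nat.odd_iff] at h4
        rw [Nat.even_iff]
        omega
      · have h4 : ¬ Odd (p e) := fun h => h3 (Finset.mem_filter.2 ⟨Finset.mem_univ _, h⟩)
        rw [Nat.not_odd_iff_even] at h4
        rw [if_neg h3] at h1
        rw [Nat.even_iff] at h4 ⊢
        omega
    · intro e f
      have h1 := hrhi e
      have h2 := hrlo f
      have h3 : (8 : ℝ) * r e ≤ 9 * r f := by linarith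
      exact_mod_cast h3
    · intro e f hef
      have h1 : p e = p f := by
        have := hc.tc v hv hef
        have h2 : (p e : ℝ) = p f := by linarith
        exact_mod_cast h2
      have h2 := hqtc e f hef
      have h3 : (e ∈ W) = (f ∈ W) := by
        simp only [hW, Finset.mem_filter, Finset.mem_univ, true_and, h1]
      simp only [hr, h1, h2, h3]
  have hq3 : InIntCone G (fun e => ∑ j : ι, if e ∈ (univ.filter fun e' => τ j e' = 1) then 1 else 0) :=
    intCone_sum Finset.univ G (fun j e => if e ∈ (univ.filter fun e' => τ j e' = 1) then 1 else 0)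
      (fun j _ => intCone_even G _ (even_of_mem G hv (ht1 j)))
  have hq4 : (fun e => ∑ j : ι, if e ∈ (univ.filter fun e' => τ j e' = 1) then 1 else 0) = q := by
    funext e
    simp only [hq, cnt, Finset.card_filter, Finset.mem_filter, Finset.mem_univ, true_and]
    refine Finset.sum_congr rfl fun j _ => ?_
    by_cases h : τ j e = 1 <;> simp [h]
  rw [hq4] at hq3
  have h1 := intCone_add (intCone_add hres (intCone_add hq3 hq3)) (intCone_even G W hpar)
  convert h1 using 1
  ext e
  have := hle e
  simp only [hr]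
  omega

end Pool.Agent.U389.FR
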