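import Mathlib

set_option autoImplicit false
set_option linter.unusedSectionVars false

/-!
Fourier analysis on `E → ZMod 2` and the rounding of a measure with prescribed local integrality.
-/

namespace Pool.Agent.U389.FR

open Finset

/-- the nontrivial sign of `ZMod 2`. -/
noncomputable def sgn (a : ZMod 2) : ℝ := if a = 0 then 1 else -1

@[simp] lemma sgn_zero : sgn 0 = 1 := by simp [sgn]

@[simp] lemma sgn_one : sgn 1 = -1 := by simp [sgn]

lemma z2_cases (a : ZMod 2) : a = 0 ∨ a = 1 := by
  revert a; decide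

lemma sgn_add (a b : ZMod 2) : sgn (a + b) = sgn a * sgn b := by
  have h : (1 : ZMod 2) + 1 = 0 := by decide
  rcases z2_cases a with rfl | rfl <;> rcases z2_cases b with rfl | rfl <;> simp [h]

lemma sgn_abs (a : ZMod 2) : |sgn a| = 1 := by
  rcases z2_cases a with rfl | rfl <;> simp

lemma sgn_sum {ι : Type*} (s : Finset ι) (f : ι → ZMod 2) :
    sgn (∑ i ∈ s, f i) = ∏ i ∈ s, sgn (f i) := by
  classical
  induction s using Finset.induction_on with
  | empty => simp
  | insert a s ha ih => rw [Finset.sum_insert ha, Finset.prod_insert ha, sgn_add, ih]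

variable {I : Type*} [Fintype I] [DecidableEq I]

/-- the standard pairing -/
def ip (D Z : I → ZMod 2) : ZMod 2 := ∑ i, D i * Z i

lemma ip_add_left (D D' Z : I → ZMod 2) : ip (D + D') Z = ip D Z + ip D' Z := by
  simp only [ip, Pi.add_apply, add_mul, Finset.sum_add_distrib]

lemma ip_add_right (D Z Z' : I → ZMod 2) : ip D (Z + Z') = ip D Z + ip D Z' := by
  simp only [ip, Pi.add_apply, mul_add, Finset.sum_add_distrib]

@[simp] lemma ip_zero_left (Z : I → ZMod 2) : ip 0 Z = 0 := by simp [ip]

@[simp] lemma ip_zero_right (Z : I → ZMod 2) : ip Z 0 = 0 := by simp [ip]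

/-- Orthogonality. -/
lemma orth (D : I → ZMod 2) :
    ∑ Z : I → ZMod 2, sgn (ip D Z) = if D = 0 then (2 : ℝ) ^ Fintype.card I else 0 := by
  have h1 : ∀ Z : I → ZMod 2, sgn (ip D Z) = ∏ i, sgn (D i * Z i) := fun Z => sgn_sum _ _
  have h2 : ∑ Z : I → ZMod 2, ∏ i, sgn (D i * Z i) = ∏ i, ∑ b : ZMod 2, sgn (D i * b) := by
    rw [Finset.prod_univ_sum, Fintype.piFinset_univ]
  simp only [h1, h2]
  have h3 : ∀ d : ZMod 2, ∑ b : ZMod 2, sgn (d * b) = if d = 0 then 2 else 0 := by
    intro d
    have : (Finset.univ : Finset (ZMod 2)) = {0, 1} := by decide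
    rw [this, Finset.sum_pair (by decide)]
    rcases z2_cases d with rfl | rfl
    · simp; norm_num
    · simp
  simp only [h3]
  split_ifs with h
  · subst h
    simp
  · obtain ⟨i, hi⟩ : ∃ i, D i ≠ 0 := by
      by_contra hcon
      push Not at hcon
      exact h (funext hcon)
    exact Finset.prod_eq_zero (Finset.mem_univ i) (by simp [hi])

/-- Orthogonality, two functions. -/
lemma orth2 (D D' : I → ZMod 2) :
    ∑ Z : I → ZMod 2, sgn (ip D Z) * sgn (ip D' Z) =
      if D = D' then (2 : ℝ) ^ Fintype.card I else 0 := by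
  have h1 : ∀ Z : I → ZMod 2, sgn (ip D Z) * sgn (ip D' Z) = sgn (ip (D + D') Z) := by
    intro Z
    rw [ip_add_left, sgn_add]
  simp only [h1, orth]
  congr 1
  rw [eq_iff_iff]
  constructor
  · intro h
    funext i
    have h2 := congrFun h i
    simp only [Pi.add_apply, Pi.zero_apply] at h2
    exact CharTwo.add_eq_zero.mp h2
  · rintro rfl
    funext i
    exact CharTwo.add_self_eq_zero _

/-- the Fourier transform -/
noncomputable def ft (lam : (I → ZMod 2) → ℝ) (D : I → ZMod 2) : ℝ := ∑ Z, lam Z * sgn (ip D Z)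

/-- inverse transform of a function on the dual -/
noncomputable def ift (R : (I → ZMod 2) → ℝ) (Z : I → ZMod 2) : ℝ :=
  (∑ D, R D * sgn (ip D Z)) / 2 ^ Fintype.card I

/-- inversion -/
lemma ft_ift (R : (I → ZMod 2) → ℝ) (D : I → ZMod 2) : ft (ift R) D = R D := by
  have h2 : (2 : ℝ) ^ Fintype.card I ≠ 0 := by positivity
  simp only [ft, ift, div_mul_eq_mul_div, ← Finset.sum_div, Finset.sum_mul]
  rw [Finset.sum_comm]
  have h1 : ∀ D' : I → ZMod 2, ∑ Z, R D' * sgn (ip D' Z) * sgn (ip D Z) =
      if D' = D then R D' * 2 ^ Fintype.card I else 0 := by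
    intro D'
    simp only [mul_assoc, ← Finset.mul_sum, orth2]
    split_ifs <;> simp
  simp only [h1]
  rw [Finset.sum_ite_eq' Finset.univ D (fun D' => R D' * 2 ^ Fintype.card I)]
  simp only [Finset.mem_univ, if_true]
  field_simp

lemma ip_comm (D Z : I → ZMod 2) : ip D Z = ip Z D := by
  simp only [ip, mul_comm]

/-- indicator of equality through characters -/
lemma ind_eq (b : I → ZMod 2) :
    (if b = 0 then (1 : ℝ) else 0) = (∑ X : I → ZMod 2, sgn (ip X b)) / 2 ^ Fintype.card I := by
  have h1 : ∀ X : I → ZMod 2, sgn (ip X b) = sgn (ip b X) := fun X => by rw [ip_comm]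
  simp only [h1, orth]
  split_ifs
  · rw [div_self (by positivity)]
  · simp

end Pool.Agent.U389.FR
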