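import Pool.Agent.U389.FR.Tree
import Pool.Agent.W831.ECC.Lat

set_option autoImplicit false
set_option linter.unusedSectionVars false

/-!
Circuit covers of weightings deep inside the cone of the circuits, for bounded treewidth.
-/

namespace Pool.Agent.U389.FR

open Finset
open scoped Classical
open Pool.Agent.H126R2.CDC (MGraph IsFl isFl_iff)
open Pool.Agent.H126R2.NC (InLat InIntCone TC)
open Pool.Agent.W831.ECC (RCone intCone_add intCone_even intCone_zero cover_tc parity_of_lat
  bridgeless_of_lat)

variable {V E : Type} [Fintype V] [DecidableEq V] [Fintype E] [DecidableEq E]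

/-- indicator vector -/
def vec (C : Finset E) : E → ZMod 2 := fun e => if e ∈ C then 1 else 0

lemma mem_Sp_iff (v : E × Bool → V) (Z : E → ZMod 2) : Z ∈ Sp (bdf v univ) ↔ IsFl v Z := by
  have h : ∀ w, ip (bdf v univ w) Z = ∑ h : E × Bool, (if v h = w then Z h.1 else 0) := by
    intro w
    rw [Fintype.sum_prod_type]
    simp only [ip, bdf, Finset.mem_univ, if_true]
    refine Finset.sum_congr rfl fun e _ => ?_
    rw [Fintype.sum_bool]
    split_ifs <;> ring
  constructor
  · intro hZ w
    rw [← h w]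
    exact hZ w
  · intro hZ w
    rw [h w]
    exact hZ w

lemma vec_mem (G : MGraph V E) {v : E × Bool → V}
    (hv : ∀ e, G.ends e = s(v (e, false), v (e, true))) {C : Finset E} (hC : G.IsEven C) :
    vec C ∈ Sp (bdf v univ) := by
  rw [mem_Sp_iff]
  have := (G.isEven_iff v hv C).1 hC
  convert this using 1
  funext e
  simp [vec]

lemma even_of_mem (G : MGraph V E) {v : E × Bool → V}
    (hv : ∀ e, G.ends e = s(v (e, false), v (e, true))) {Z : E → ZMod 2}
    (hZ : Z ∈ Sp (bdf v univ)) : G.IsEven (univ.filter fun e => Z e = 1) := by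
  rw [mem_Sp_iff] at hZ
  rw [G.isEven_iff v hv]
  convert hZ using 1
  funext e
  rcases z2_cases (Z e) with h | h <;> simp [h]

/-- two-edge cuts and the cycle space -/
lemma Sp_tc {v : E × Bool → V} {Z : E → ZMod 2} (hZ : Z ∈ Sp (bdf v univ)) {e f : E}
    (h : TC (fun e => v (e, false)) (fun e => v (e, true)) e f) : Z e = Z f := by
  obtain ⟨z, hz⟩ := h
  have h1 := (isFl_iff v _).1 ((mem_Sp_iff v Z).1 hZ) z
  have h2 : ∀ h ∈ (univ : Finset E), Z h * (z (v (h, false)) + z (v (h, true))) =
      (if h = e then Z e else 0) + (if h = f then Z f else 0) := by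
    intro h _
    rw [hz h, mul_add]
    congr 1
    · by_cases h3 : h = e
      · rw [h3]; simp
      · simp [h3]
    · by_cases h3 : h = f
      · rw [h3]; simp
      · simp [h3]
  rw [Finset.sum_congr rfl h2, Finset.sum_add_distrib, Finset.sum_ite_eq', Finset.sum_ite_eq'] at h1
  simp only [Finset.mem_univ, if_true] at h1
  exact CharTwo.add_eq_zero.mp h1

/-- the measure to be rounded -/
noncomputable def lam (v : E × Bool → V) (w : Finset E → ℝ) (κ : ℝ) (Z : E → ZMod 2) : ℝ :=
  (∑ C : Finset E, w C * (if vec C = Z then 1 else 0)) / 2 +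
    (if Z ∈ Sp (bdf v univ) then κ / Nat.card (Sp (bdf v univ)) else 0)

lemma lam_nonneg {v : E × Bool → V} {w : Finset E → ℝ} (hw : ∀ C, 0 ≤ w C) {κ : ℝ} (hκ : 0 ≤ κ)
    (Z : E → ZMod 2) : 0 ≤ lam v w κ Z := by
  unfold lam
  refine add_nonneg (div_nonneg (Finset.sum_nonneg fun C _ => mul_nonneg (hw C) ?_) (by norm_num))
    ?_
  · split_ifs <;> norm_num
  · split_ifs
    · positivity
    · exact le_rfl

lemma lam_supp (G : MGraph V E) {v : E × Bool → V}
    (hv : ∀ e, G.ends e = s(v (e, false), v (e, true))) {w : Finset E → ℝ}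
    (hw : ∀ C, ¬ G.IsCircuit C → w C = 0) {κ : ℝ} (Z : E → ZMod 2) (hZ : lam v w κ Z ≠ 0) :
    Z ∈ Sp (bdf v univ) := by
  by_contra hcon
  apply hZ
  unfold lam
  rw [if_neg hcon, add_zero]
  have : ∑ C : Finset E, w C * (if vec C = Z then (1 : ℝ) else 0) = 0 := by
    refine Finset.sum_eq_zero fun C _ => ?_
    by_cases hC : G.IsCircuit C
    · have h1 : vec C ≠ Z := by
        rintro rfl
        exact hcon (vec_mem G hv hC.isEven)
      rw [if_neg h1, mul_zero]
    · rw [hw C hC, zero_mul]
  rw [this, zero_div]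

/-- half of the cycle space contains a given edge which lies on a circuit -/
lemma half_card {v : E × Bool → V} {C0 : E → ZMod 2} (hC0 : C0 ∈ Sp (bdf v univ)) {e : E}
    (he : C0 e = 1) : ((univ.filter fun Z => Z ∈ Sp (bdf v univ) ∧ Z e = 1).card : ℝ) * 2 =
      Nat.card (Sp (bdf v univ)) := by
  have hadd : ∀ Z ∈ Sp (bdf v univ), Z + C0 ∈ Sp (bdf v univ) := by
    intro Z hZ w
    rw [ip_add_right, hZ w, hC0 w, add_zero]
  have h11 : (1 : ZMod 2) + 1 = 0 := by decide
  have hcc : C0 + C0 = 0 := by
    funext i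
    exact CharTwo.add_self_eq_zero _
  have h1 : (univ.filter fun Z : E → ZMod 2 => Z ∈ Sp (bdf v univ) ∧ Z e = 1).card =
      (univ.filter fun Z : E → ZMod 2 => Z ∈ Sp (bdf v univ) ∧ Z e = 0).card := by
    refine Finset.card_bij' (fun Z _ => Z + C0) (fun Z _ => Z + C0) ?_ ?_ ?_ ?_
    · intro Z hZ
      simp only [Finset.mem_filter, Finset.mem_univ, true_and] at hZ ⊢
      exact ⟨hadd Z hZ.1, by rw [Pi.add_apply, hZ.2, he, h11]⟩
    · intro Z hZ
      simp only [Finset.mem_filter, Finset.mem_univ, true_and] at hZ ⊢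
      exact ⟨hadd Z hZ.1, by rw [Pi.add_apply, hZ.2, he, zero_add]⟩
    · intro Z _
      rw [add_assoc, hcc, add_zero]
    · intro Z _
      rw [add_assoc, hcc, add_zero]
  have h2 : Nat.card (Sp (bdf v univ)) =
      (univ.filter fun Z : E → ZMod 2 => Z ∈ Sp (bdf v univ)).card := by
    rw [Nat.card_eq_fintype_card, Fintype.card_ofFinset
      (univ.filter fun Z : E → ZMod 2 => Z ∈ Sp (bdf v univ)) (by simp)]
  have h3 : (univ.filter fun Z : E → ZMod 2 => Z ∈ Sp (bdf v univ)).card =
      (univ.filter fun Z : E → ZMod 2 => Z ∈ Sp (bdf v univ) ∧ Z e = 1).card +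
      (univ.filter fun Z : E → ZMod 2 => Z ∈ Sp (bdf v univ) ∧ Z e = 0).card := by
    rw [← Finset.card_union_of_disjoint]
    · congr 1
      ext Z
      simp only [Finset.mem_filter, Finset.mem_univ, true_and, Finset.mem_union]
      rcases z2_cases (Z e) with h | h <;> simp [h]
    · rw [Finset.disjoint_left]
      intro Z h4 h5
      simp only [Finset.mem_filter, Finset.mem_univ, true_and] at h4 h5
      rw [h4.2] at h5
      exact absurd h5.2 (by decide)
  rw [h2, h3, ← h1]
  push_cast
  ring

/-- the covering of an edge by the measure -/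
lemma lam_cover {v : E × Bool → V} {w : Finset E → ℝ} {κ : ℝ} {C0 : E → ZMod 2}
    (hC0 : C0 ∈ Sp (bdf v univ)) {e : E} (he : C0 e = 1) :
    ∑ Z : E → ZMod 2, (if Z e = 1 then lam v w κ Z else 0) =
      (∑ C : Finset E, w C * (if e ∈ C then 1 else 0)) / 2 + κ / 2 := by
  have h1 : ∀ Z : E → ZMod 2, (if Z e = 1 then lam v w κ Z else 0) =
      (∑ C : Finset E, (if vec C = Z then w C * (if e ∈ C then 1 else 0) else 0)) / 2 +
      (if Z ∈ Sp (bdf v univ) ∧ Z e = 1 then κ / Nat.card (Sp (bdf v univ)) else 0) := by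
    intro Z
    unfold lam
    by_cases hZ : Z e = 1
    · rw [if_pos hZ]
      congr 1
      · congr 1
        refine Finset.sum_congr rfl fun C _ => ?_
        by_cases hC : vec C = Z
        · have : e ∈ C := by
            by_contra hcon
            rw [← hC] at hZ
            simp [vec, hcon] at hZ
          simp [hC, this]
        · simp [hC]
      · simp [hZ]
    · rw [if_neg hZ]
      have h2 : ∀ C : Finset E, (if vec C = Z then w C * (if e ∈ C then (1 : ℝ) else 0) else 0)
          = 0 := by
        intro C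
        by_cases hC : vec C = Z
        · have : e ∉ C := by
            intro hcon
            apply hZ
            rw [← hC]
            simp [vec, hcon]
          simp [this]
        · simp [hC]
      rw [Finset.sum_eq_zero fun C _ => h2 C]
      simp [hZ]
  simp only [h1, Finset.sum_add_distrib, ← Finset.sum_div]
  congr 1
  · congr 1
    rw [Finset.sum_comm]
    refine Finset.sum_congr rfl fun C _ => ?_
    rw [Finset.sum_ite_eq]
    simp
  · rw [← Finset.sum_filter, Finset.sum_const, nsmul_eq_mul]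
    have h3 := half_card hC0 he
    have h4 : (0 : ℝ) < Nat.card (Sp (bdf v univ)) := by
      have : Nonempty (Sp (bdf v univ)) := ⟨⟨C0, hC0⟩⟩
      exact_mod_cast Nat.card_pos
    rw [← h3] at h4 ⊢
    generalize ((univ.filter fun Z => Z ∈ Sp (bdf v univ) ∧ Z e = 1).card : ℝ) = q at h4 ⊢
    have h5 : q ≠ 0 := by
      rintro rfl
      simp at h4
    field_simp

lemma intCone_sum {ι : Type} (s : Finset ι) (G : MGraph V E) (f : ι → E → ℕ)
    (hf : ∀ j ∈ s, InIntCone G (f j)) : InIntCone G (fun e => ∑ j ∈ s, f j e) := by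
  induction s using Finset.induction_on with
  | empty => exact intCone_zero G _ (fun e => by simp)
  | insert a s ha ih =>
    have h1 := intCone_add (hf a (Finset.mem_insert_self a s))
      (ih fun j hj => hf j (Finset.mem_insert_of_mem hj))
    convert h1 using 1
    funext e
    rw [Finset.sum_insert ha]

/-- A tree decomposition of a graph with loops and parallel edges, over a finite tree, all of
whose bags have at most `k + 1` vertices. -/
structure TreeDec (G : MGraph V E) (k : ℕ) (N : Type) where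
  tree : SimpleGraph N
  isTree : tree.IsTree
  bag : N → Finset V
  conn : ∀ w, (tree.induce {x | w ∈ bag x}).Connected
  edge : ∀ e, ∃ x, ∀ w ∈ G.ends e, w ∈ bag x
  width : ∀ x, (bag x).card ≤ k + 1

/-- **Rounding theorem.** -/
theorem rounding (G : MGraph V E) (hbr : G.Bridgeless) {v : E × Bool → V}
    (hv : ∀ e, G.ends e = s(v (e, false), v (e, true))) {k : ℕ} (hk : 1 ≤ k) {N : Type}
    [Fintype N] (D : TreeDec G k N) (x : E → ℝ) (hx : RCone G x) :
    ∃ (ι : Type) (_ : Fintype ι) (τ : ι → E → ZMod 2), (∀ j, τ j ∈ Sp (bdf v univ)) ∧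
      ∀ e, |(cnt (fun j => τ j e = 1) : ℝ) - (x e / 2 + 2 ^ (4 * k + 2))| ≤ 2 ^ (2 * k + 1) := by
  obtain ⟨w, hw0, hw1, hw2⟩ := hx
  set m := 2 * (k + 1) with hm
  set κ : ℝ := 2 ^ m * 2 ^ m / 2 with hκ
  set n := nn (lam v w κ) 0 m with hn
  have hκ0 : 0 ≤ κ := by positivity
  have hnice : Nice v n m := by
    constructor
    · intro Z hZ
      by_contra hcon
      simp only [Sp, Set.mem_ofPred_eq, not_forall] at hcon
      obtain ⟨u, hu⟩ := hcon
      exact hZ (nn_supp _ _ _ (bdf v univ u) (fun Z' hZ' => lam_supp G hv hw1 Z' hZ' u) Z hu)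
    · intro I _ _ F a hI
      obtain ⟨t, ht⟩ := loc_nat (bdf v univ) (lam v w κ) 0 m κ (lam_nonneg hw0 hκ0)
        (fun Z hZ => lam_supp G hv hw1 Z hZ) le_rfl (by
          intro Z hZ
          unfold lam
          rw [if_pos hZ]
          have : 0 ≤ (∑ C : Finset E, w C * (if vec C = Z then (1 : ℝ) else 0)) / 2 :=
            div_nonneg (Finset.sum_nonneg fun C _ => mul_nonneg (hw0 C)
              (by split_ifs <;> norm_num)) (by norm_num)
          linarith) F hI a
      refine ⟨t, ?_⟩
      rw [← ht]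
      simp only [ms, hn]
  have hQ := Q_univ hnice D.isTree D.bag (fun w => (D.conn w).preconnected)
    (fun x => by have := D.width x; omega) (fun x => by have := D.width x; omega) (fun e => by
      obtain ⟨x, hx⟩ := D.edge e
      refine ⟨x, hx _ ?_, hx _ ?_⟩ <;> rw [hv e] <;> simp)
  obtain ⟨ι, hι, τ, -, h2, h3⟩ := hQ
  refine ⟨ι, hι, τ, ?_, ?_⟩
  · intro j
    by_contra hcon
    have h4 := h2 (bd v univ (τ j))
    have h5 : ms n (fun Z => bd v univ Z = bd v univ (τ j)) = 0 := by
      unfold ms
      refine Finset.sum_eq_zero fun Z _ => ?_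
      by_cases hZ : n Z = 0
      · simp [hZ]
      · have h6 := hnice.supp Z hZ
        rw [if_neg]
        intro h7
        apply hcon
        intro u
        have h8 := congrFun h7 u
        have h9 := h6 u
        change ip (bdf v univ u) (τ j) = 0
        rw [← h9]
        exact h8.symm
    rw [h5] at h4
    have h6 : cnt (fun j' => bd v univ (τ j') = bd v univ (τ j)) = 0 := by exact_mod_cast h4
    have h7 := card_cnt (fun j' => bd v univ (τ j') = bd v univ (τ j))
    rw [h6, Nat.card_eq_zero] at h7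
    rcases h7 with h7 | h7
    · exact h7.false ⟨j, rfl⟩
    · exact h7.not_finite inferInstance
  · intro e
    obtain ⟨C0, hC0, heC0⟩ := hbr e
    have h4 := loc_close (lam v w κ) 0 m (fun _ : Unit => Pi.single e 1) (fun _ => 1)
    simp only [ip_single] at h4
    have h5 := lam_cover (w := w) (κ := κ) (vec_mem G hv hC0.isEven) (e := e) (by simp [vec, heC0])
    have h6 : ∑ Z : E → ZMod 2, (if (Unit → Z e = 1) then lam v w κ Z else 0) =
        x e / 2 + 2 ^ (4 * k + 2) := by
      rw [hw2 e]
      have h7 : κ / 2 = 2 ^ (4 * k + 2) := by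
        rw [hκ, ← pow_add, hm, show 2 * (k + 1) + 2 * (k + 1) = (4 * k + 2) + 2 by ring, pow_add]
        ring
      rw [← h7, ← h5]
      refine Finset.sum_congr rfl fun Z _ => ?_
      by_cases h8 : Z e = 1 <;> simp [h8]
    have h7 : (cnt (fun j => τ j e = 1) : ℝ) =
        ∑ Z : E → ZMod 2, (if (Unit → Z e = 1) then nn (lam v w κ) 0 m Z else 0) := by
      rw [h3 e (Finset.mem_univ e)]
      simp only [ms, hn]
      refine Finset.sum_congr rfl fun Z _ => ?_
      by_cases h8 : Z e = 1 <;> simp [h8]
    rw [h7, ← h6]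
    refine h4.trans (le_of_eq ?_)
    rw [hm, show 2 * (k + 1) = (2 * k + 1) + 1 by ring, pow_succ]
    ring

end Pool.Agent.U389.FR
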