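import Pool.Agent.U389.FR.Four

set_option autoImplicit false
set_option linter.unusedSectionVars false

/-!
Rounding the Fourier coefficients of a measure.
-/

namespace Pool.Agent.U389.FR

open Finset

/-- the integer congruent to `N` modulo `2 ^ m` which is nearest to `y` -/
noncomputable def rd (N m : ℕ) (y : ℝ) : ℤ := N + 2 ^ m * round ((y - N) / 2 ^ m)

lemma rd_self (N m : ℕ) : rd N m N = N := by simp [rd]

lemma rd_close (N m : ℕ) (y : ℝ) : |(rd N m y : ℝ) - y| ≤ 2 ^ m / 2 := by
  have h := abs_sub_round ((y - N) / 2 ^ m)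
  have hp : (0 : ℝ) < 2 ^ m := by positivity
  have h1 : ((rd N m y : ℤ) : ℝ) - y = -(2 ^ m * ((y - N) / 2 ^ m - round ((y - N) / 2 ^ m))) := by
    simp only [rd]
    push_cast
    field_simp
    ring
  rw [h1, abs_neg, abs_mul, abs_of_pos hp]
  calc (2 : ℝ) ^ m * |(y - N) / 2 ^ m - round ((y - N) / 2 ^ m)| ≤ 2 ^ m * (1 / 2) := by
        exact mul_le_mul_of_nonneg_left h hp.le
    _ = 2 ^ m / 2 := by ring

variable {E : Type*} [Fintype E] [DecidableEq E] {I : Type*} [Fintype I] [DecidableEq I]

/-- the combination of the functionals `F i` with coefficients `X i` -/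
def comb (F : I → E → ZMod 2) (X : I → ZMod 2) : E → ZMod 2 := fun e => ∑ i, X i * F i e

lemma ip_comb (F : I → E → ZMod 2) (X : I → ZMod 2) (Z : E → ZMod 2) :
    ip (comb F X) Z = ip X (fun i => ip (F i) Z) := by
  simp only [ip, comb, Finset.sum_mul, Finset.mul_sum]
  rw [Finset.sum_comm]
  refine Finset.sum_congr rfl fun i _ => Finset.sum_congr rfl fun e _ => ?_
  ring

/-- the mass of a local event in terms of the Fourier transform -/
lemma loc_eq (μ : (E → ZMod 2) → ℝ) (F : I → E → ZMod 2) (a : I → ZMod 2) :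
    ∑ Z, (if (∀ i, ip (F i) Z = a i) then μ Z else 0) =
      (∑ X : I → ZMod 2, sgn (ip X a) * ft μ (comb F X)) / 2 ^ Fintype.card I := by
  have h1 : ∀ Z, (if (∀ i, ip (F i) Z = a i) then μ Z else 0) =
      (∑ X : I → ZMod 2, sgn (ip X a) * (μ Z * sgn (ip (comb F X) Z))) / 2 ^ Fintype.card I := by
    intro Z
    have h2 := ind_eq ((fun i => ip (F i) Z) + a)
    have h3 : ((fun i => ip (F i) Z) + a = 0) ↔ ∀ i, ip (F i) Z = a i := by
      constructor
      · intro h i
        have := congrFun h i
        simp only [Pi.add_apply, Pi.zero_apply] at this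
        exact CharTwo.add_eq_zero.mp this
      · intro h
        funext i
        simp only [Pi.add_apply, Pi.zero_apply, h i]
        exact CharTwo.add_self_eq_zero _
    have h4 : (if (∀ i, ip (F i) Z = a i) then μ Z else 0) =
        μ Z * (if (fun i => ip (F i) Z) + a = 0 then (1 : ℝ) else 0) := by
      by_cases h : ∀ i, ip (F i) Z = a i
      · rw [if_pos h, if_pos (h3.mpr h), mul_one]
      · rw [if_neg h, if_neg (fun h' => h (h3.mp h')), mul_zero]
    rw [h4, h2, mul_div_assoc', Finset.mul_sum]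
    congr 1
    refine Finset.sum_congr rfl fun X _ => ?_
    rw [ip_add_right, sgn_add, ip_comb]
    ring
  simp only [h1, ← Finset.sum_div]
  congr 1
  rw [Finset.sum_comm]
  refine Finset.sum_congr rfl fun X _ => ?_
  rw [← Finset.mul_sum]
  rfl

/-- the rounded signed measure -/
noncomputable def nn (lam : (E → ZMod 2) → ℝ) (N m : ℕ) : (E → ZMod 2) → ℝ :=
  ift (fun D => (rd N m (ft lam D) : ℝ))

lemma ft_nn (lam : (E → ZMod 2) → ℝ) (N m : ℕ) (D : E → ZMod 2) :
    ft (nn lam N m) D = (rd N m (ft lam D) : ℝ) := ft_ift _ _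

/-- the rounded measure vanishes wherever a functional vanishing on the support of `lam` is
nonzero -/
lemma nn_supp (lam : (E → ZMod 2) → ℝ) (N m : ℕ) (c : E → ZMod 2)
    (hc : ∀ Z, lam Z ≠ 0 → ip c Z = 0) (Z : E → ZMod 2) (hZ : ip c Z ≠ 0) :
    nn lam N m Z = 0 := by
  have h1 : ∀ D, ft lam (D + c) = ft lam D := by
    intro D
    simp only [ft]
    refine Finset.sum_congr rfl fun Z' _ => ?_
    by_cases h : lam Z' = 0
    · rw [h, zero_mul, zero_mul]
    · rw [ip_add_left, hc Z' h, add_zero]
  have h2 : ip c Z = 1 := (z2_cases _).resolve_left hZ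
  simp only [nn, ift]
  have h3 : ∑ D, (rd N m (ft lam D) : ℝ) * sgn (ip D Z) =
      - ∑ D, (rd N m (ft lam D) : ℝ) * sgn (ip D Z) := by
    conv_lhs => rw [← Equiv.sum_comp (Equiv.addRight c)]
    rw [← Finset.sum_neg_distrib]
    refine Finset.sum_congr rfl fun D _ => ?_
    rw [Equiv.coe_addRight, h1, ip_add_left, h2, sgn_add, sgn_one]
    ring
  have h4 : ∑ D, (rd N m (ft lam D) : ℝ) * sgn (ip D Z) = 0 := by linarith
  rw [h4, zero_div]

/-- integer sign -/
def isgn (a : ZMod 2) : ℤ := if a = 0 then 1 else -1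

lemma isgn_cast (a : ZMod 2) : ((isgn a : ℤ) : ℝ) = sgn a := by
  rcases z2_cases a with rfl | rfl <;> simp [isgn]

/-- the masses of the local events are integers -/
lemma loc_int (lam : (E → ZMod 2) → ℝ) (N m : ℕ) (F : I → E → ZMod 2) (hI : Fintype.card I ≤ m)
    (a : I → ZMod 2) :
    ∃ z : ℤ, ∑ Z, (if (∀ i, ip (F i) Z = a i) then nn lam N m Z else 0) = z := by
  rw [loc_eq]
  obtain ⟨r, hr⟩ := Nat.exists_eq_add_of_le hI
  refine ⟨N * (if a = 0 then 1 else 0) + 2 ^ r * ∑ X : I → ZMod 2,
    isgn (ip X a) * round ((ft lam (comb F X) - N) / 2 ^ m), ?_⟩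
  have h2 : (2 : ℝ) ^ Fintype.card I ≠ 0 := by positivity
  rw [div_eq_iff h2]
  have h3 : ∀ X : I → ZMod 2, sgn (ip X a) * ft (nn lam N m) (comb F X) =
      N * sgn (ip X a) + 2 ^ Fintype.card I * (2 ^ r *
        (isgn (ip X a) * round ((ft lam (comb F X) - N) / 2 ^ m) : ℤ)) := by
    intro X
    rw [ft_nn]
    simp only [rd]
    push_cast
    rw [isgn_cast, hr, pow_add]
    ring
  simp only [h3, Finset.sum_add_distrib, ← Finset.mul_sum]
  have h4 : ∑ X : I → ZMod 2, sgn (ip X a) = if a = 0 then (2 : ℝ) ^ Fintype.card I else 0 := by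
    rw [← orth a]
    exact Finset.sum_congr rfl fun X _ => by rw [ip_comm]
  rw [h4]
  push_cast
  split_ifs <;> ring

/-- the rounded masses of the local events are close to the original ones -/
lemma loc_close (lam : (E → ZMod 2) → ℝ) (N m : ℕ) (F : I → E → ZMod 2) (a : I → ZMod 2) :
    |∑ Z, (if (∀ i, ip (F i) Z = a i) then nn lam N m Z else 0) -
      ∑ Z, (if (∀ i, ip (F i) Z = a i) then lam Z else 0)| ≤ 2 ^ m / 2 := by
  rw [loc_eq, loc_eq, ← sub_div, ← Finset.sum_sub_distrib, abs_div]
  have hp : (0 : ℝ) < 2 ^ Fintype.card I := by positivity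
  rw [abs_of_pos hp, div_le_iff₀ hp]
  refine (Finset.abs_sum_le_sum_abs _ _).trans ?_
  have h1 : ∀ X ∈ (Finset.univ : Finset (I → ZMod 2)),
      |sgn (ip X a) * ft (nn lam N m) (comb F X) - sgn (ip X a) * ft lam (comb F X)| ≤
        2 ^ m / 2 := by
    intro X _
    rw [← mul_sub, abs_mul, sgn_abs, one_mul, ft_nn]
    exact rd_close _ _ _
  refine (Finset.sum_le_sum h1).trans ?_
  rw [Finset.sum_const, Finset.card_univ, Fintype.card_fun, ZMod.card, nsmul_eq_mul]
  push_cast
  exact le_of_eq (by ring)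

/-- a subspace, given by the functionals which vanish on it -/
def Sp {J : Type*} (c : J → E → ZMod 2) : Set (E → ZMod 2) := {Z | ∀ j, ip (c j) Z = 0}

/-- the masses of the local events are nonnegative integers -/
lemma loc_nat {J : Type*} (c : J → E → ZMod 2) (lam : (E → ZMod 2) → ℝ) (N m : ℕ) (κ : ℝ)
    (hlam : ∀ Z, 0 ≤ lam Z) (hsupp : ∀ Z, lam Z ≠ 0 → Z ∈ Sp c)
    (hκ : (2 : ℝ) ^ m * 2 ^ m / 2 ≤ κ)
    (huni : ∀ Z ∈ Sp c, κ / Nat.card (Sp c) ≤ lam Z)
    (F : I → E → ZMod 2) (hI : Fintype.card I ≤ m) (a : I → ZMod 2) :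
    ∃ t : ℕ, ∑ Z, (if (∀ i, ip (F i) Z = a i) then nn lam N m Z else 0) = t := by
  classical
  obtain ⟨z, hz⟩ := loc_int lam N m F hI a
  suffices h : (0 : ℝ) ≤ z by
    have h0 : 0 ≤ z := by exact_mod_cast h
    refine ⟨z.toNat, ?_⟩
    rw [hz]
    have : ((z.toNat : ℤ) : ℝ) = z := by rw [Int.toNat_of_nonneg h0]
    exact_mod_cast this.symm
  rw [← hz]
  by_cases hex : ∃ Z0 ∈ Sp c, ∀ i, ip (F i) Z0 = a i
  · obtain ⟨Z0, hZ0, ha⟩ := hex
    have h1 := loc_close lam N m F a
    have h2 : (2 : ℝ) ^ m / 2 ≤ ∑ Z, (if (∀ i, ip (F i) Z = a i) then lam Z else 0) := by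
      set S : Finset (E → ZMod 2) := Finset.univ.filter (fun Z => Z ∈ Sp c) with hS
      set Fa : Finset (E → ZMod 2) := S.filter (fun Z => ∀ i, ip (F i) Z = a i) with hFa
      have hcS : Nat.card (Sp c) = S.card := by
        rw [Nat.card_eq_fintype_card, Fintype.card_ofFinset S]
      have hmem : ∀ Z, Z ∈ S ↔ Z ∈ Sp c := by
        intro Z
        simp [hS]
      have hSpos : 0 < S.card := Finset.card_pos.mpr ⟨Z0, by simp [hS, hZ0]⟩
      have h3 : S.card ≤ 2 ^ Fintype.card I * Fa.card := by
        have h4 : S.card ≤ Fa.card * (Finset.univ : Finset (I → ZMod 2)).card := by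
          refine Finset.card_le_mul_card_image_of_maps_to
            (f := fun Z => fun i => ip (F i) Z) (fun Z _ => Finset.mem_univ _) _ ?_
          intro b _
          by_cases hb : (S.filter (fun Z => (fun i => ip (F i) Z) = b)).Nonempty
          · obtain ⟨Z1, hZ1⟩ := hb
            rw [Finset.mem_filter] at hZ1
            refine Finset.card_le_card_of_injOn (fun Z => Z + (Z1 + Z0)) ?_
              (fun x _ y _ h => by simpa using h)
            intro Z hZ
            rw [Finset.mem_coe, Finset.mem_filter] at hZ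
            rw [Finset.mem_coe, hFa, Finset.mem_filter]
            constructor
            · rw [hmem]
              intro j
              have e1 := (hmem _).mp hZ.1 j
              have e2 := (hmem _).mp hZ1.1 j
              have e3 := hZ0 j
              rw [ip_add_right, ip_add_right, e1, e2, e3, add_zero, add_zero]
            · intro i
              have e1 := congrFun hZ.2 i
              have e2 := congrFun hZ1.2 i
              change ip (F i) Z = b i at e1
              change ip (F i) Z1 = b i at e2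
              rw [ip_add_right, ip_add_right, e1, e2, ha i, ← add_assoc,
                CharTwo.add_self_eq_zero, zero_add]
          · rw [Finset.not_nonempty_iff_eq_empty.mp hb]
            simp
        rw [Finset.card_univ, Fintype.card_fun, ZMod.card] at h4
        linarith
      have h5 : (S.card : ℝ) ≤ 2 ^ m * Fa.card := by
        have : S.card ≤ 2 ^ m * Fa.card :=
          h3.trans (Nat.mul_le_mul_right _ (Nat.pow_le_pow_right (by norm_num) hI))
        exact_mod_cast this
      have h6 : κ / S.card * Fa.card ≤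
          ∑ Z, (if (∀ i, ip (F i) Z = a i) then lam Z else 0) := by
        calc κ / S.card * Fa.card = ∑ Z ∈ Fa, κ / S.card := by
              rw [Finset.sum_const, nsmul_eq_mul]; ring
          _ ≤ ∑ Z ∈ Fa, (if (∀ i, ip (F i) Z = a i) then lam Z else 0) := by
              refine Finset.sum_le_sum fun Z hZ => ?_
              rw [hFa, Finset.mem_filter] at hZ
              rw [if_pos hZ.2, ← hcS]
              exact huni Z ((hmem Z).mp hZ.1)
          _ ≤ _ := by
              refine Finset.sum_le_sum_of_subset_of_nonneg (Finset.subset_univ _) ?_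
              intro Z _ _
              split_ifs
              · exact hlam Z
              · exact le_rfl
      refine le_trans ?_ h6
      have hSp : (0 : ℝ) < S.card := by exact_mod_cast hSpos
      have hm : (0 : ℝ) < 2 ^ m := by positivity
      rw [div_mul_eq_mul_div, le_div_iff₀ hSp]
      calc (2 : ℝ) ^ m / 2 * S.card ≤ 2 ^ m / 2 * (2 ^ m * Fa.card) := by
            exact mul_le_mul_of_nonneg_left h5 (by positivity)
        _ = (2 ^ m * 2 ^ m / 2) * Fa.card := by ring
        _ ≤ κ * Fa.card := mul_le_mul_of_nonneg_right hκ (by positivity)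
    have h7 := (abs_le.mp h1).1
    linarith
  · refine le_of_eq (Eq.symm ?_)
    refine Finset.sum_eq_zero fun Z _ => ?_
    by_cases h : ∀ i, ip (F i) Z = a i
    · rw [if_pos h]
      have h2 : Z ∉ Sp c := fun h' => hex ⟨Z, h', h⟩
      simp only [Sp, Set.mem_ofPred_eq, not_forall] at h2
      obtain ⟨j, hj⟩ := h2
      exact nn_supp lam N m (c j) (fun Z' h' => hsupp Z' h' j) Z hj
    · rw [if_neg h]

end Pool.Agent.U389.FR
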