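import Pool.Agent.U389.FR.Rnd

set_option autoImplicit false
set_option linter.unusedSectionVars false

/-!
Realising the rounded measure by an honest family, piece by piece.
-/

namespace Pool.Agent.U389.FR

open Finset
open scoped Classical

variable {V E : Type} [Fintype V] [DecidableEq V] [Fintype E] [DecidableEq E]

/-- the functional which maps `Z` to the degree at `w` in `Z` inside `S` -/
def bdf (v : E × Bool → V) (S : Finset E) (w : V) : E → ZMod 2 := fun e =>
  if e ∈ S then (if v (e, false) = w then 1 else 0) + (if v (e, true) = w then 1 else 0) else 0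

/-- the boundary of the part of `Z` inside `S` -/
def bd (v : E × Bool → V) (S : Finset E) (Z : E → ZMod 2) : V → ZMod 2 :=
  fun w => ip (bdf v S w) Z

/-- every vertex outside `A` has all its edges in `S` or none -/
def Bd (v : E × Bool → V) (S : Finset E) (A : Finset V) : Prop :=
  ∀ w ∉ A, (∀ e, (v (e, false) = w ∨ v (e, true) = w) → e ∈ S) ∨
    (∀ e, (v (e, false) = w ∨ v (e, true) = w) → e ∉ S)

lemma Bd.zero {v : E × Bool → V} {S : Finset E} {A : Finset V} (h : Bd v S A) {Z : E → ZMod 2}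
    (hZ : Z ∈ Sp (bdf v univ)) {w : V} (hw : w ∉ A) : bd v S Z w = 0 := by
  rcases h w hw with h1 | h1
  · have : bdf v S w = bdf v univ w := by
      funext e
      simp only [bdf, Finset.mem_univ, if_true]
      by_cases h2 : e ∈ S
      · rw [if_pos h2]
      · have h3 : v (e, false) ≠ w := fun h => h2 (h1 e (Or.inl h))
        have h4 : v (e, true) ≠ w := fun h => h2 (h1 e (Or.inr h))
        rw [if_neg h2, if_neg h3, if_neg h4, add_zero]
    rw [bd, this]
    exact hZ w
  · have : bdf v S w = 0 := by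
      funext e
      simp only [bdf, Pi.zero_apply]
      by_cases h2 : e ∈ S
      · have h3 : v (e, false) ≠ w := fun h => h1 e (Or.inl h) h2
        have h4 : v (e, true) ≠ w := fun h => h1 e (Or.inr h) h2
        rw [if_pos h2, if_neg h3, if_neg h4, add_zero]
      · rw [if_neg h2]
    rw [bd, this]
    simp

/-- mass of an event -/
noncomputable def ms (n : (E → ZMod 2) → ℝ) (P : (E → ZMod 2) → Prop) : ℝ :=
  ∑ Z, if P Z then n Z else 0

lemma ms_sum {α : Type*} [Fintype α] (n : (E → ZMod 2) → ℝ) (φ : (E → ZMod 2) → α)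
    (P : α → Prop) :
    ms n (fun Z => P (φ Z)) = ∑ a, if P a then ms n (fun Z => φ Z = a) else 0 := by
  simp only [ms]
  have h1 : ∀ a : α, (if P a then ∑ Z, (if φ Z = a then n Z else 0) else 0) =
      ∑ Z, (if φ Z = a then (if P a then n Z else 0) else 0) := by
    intro a
    by_cases h : P a
    · simp [h]
    · simp [h]
  simp only [h1]
  rw [Finset.sum_comm]
  refine Finset.sum_congr rfl fun Z _ => ?_
  rw [Finset.sum_ite_eq Finset.univ (φ Z) (fun a => if P a then n Z else 0)]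
  simp

lemma ms_congr {n : (E → ZMod 2) → ℝ} {P Q : (E → ZMod 2) → Prop}
    (h : ∀ Z, n Z ≠ 0 → (P Z ↔ Q Z)) : ms n P = ms n Q := by
  simp only [ms]
  refine Finset.sum_congr rfl fun Z _ => ?_
  by_cases h0 : n Z = 0
  · simp [h0]
  · simp [h Z h0]

/-- number of the indices with a property -/
noncomputable def cnt {ι : Type*} [Fintype ι] (P : ι → Prop) : ℕ := (Finset.univ.filter P).card

lemma card_cnt {ι : Type*} [Fintype ι] (P : ι → Prop) : Nat.card {j // P j} = cnt P := by
  rw [Nat.card_eq_fintype_card, Fintype.card_subtype]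
  rfl

/-- finite types of equal cardinality -/
noncomputable def eqv {α β : Type*} [Finite α] [Finite β] (h : Nat.card α = Nat.card β) :
    α ≃ β := by
  haveI := Fintype.ofFinite α
  haveI := Fintype.ofFinite β
  rw [Nat.card_eq_fintype_card, Nat.card_eq_fintype_card] at h
  exact Fintype.equivOfCardEq h

lemma cnt_equiv {ι ι' : Type*} [Fintype ι] [Fintype ι'] (σ : ι ≃ ι') (P : ι' → Prop) :
    cnt (fun x => P (σ x)) = cnt P := by
  simp only [cnt]
  rw [← Fintype.card_subtype, ← Fintype.card_subtype]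
  exact Fintype.card_congr (σ.subtypeEquiv fun x => Iff.rfl)

lemma cnt_sigma {α : Type*} [Fintype α] (t : α → ℕ) (P : α → Prop) :
    cnt (fun x : Σ a, Fin (t a) => P x.1) = ∑ a, if P a then t a else 0 := by
  simp only [cnt]
  rw [Finset.card_filter, Fintype.sum_sigma]
  refine Finset.sum_congr rfl fun a _ => ?_
  by_cases h : P a <;> simp [h]

/-- the family invariant -/
def Q (v : E × Bool → V) (n : (E → ZMod 2) → ℝ) (S : Finset E) : Prop :=
  ∃ (ι : Type) (_ : Fintype ι) (τ : ι → E → ZMod 2),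
    (∀ j, ∀ e ∉ S, τ j e = 0) ∧
    (∀ T : V → ZMod 2, (cnt (fun j => bd v S (τ j) = T) : ℝ) = ms n (fun Z => bd v S Z = T)) ∧
    ∀ e ∈ S, (cnt (fun j => τ j e = 1) : ℝ) = ms n (fun Z => Z e = 1)

/-- what we know about the rounded measure -/
structure Nice (v : E × Bool → V) (n : (E → ZMod 2) → ℝ) (m : ℕ) : Prop where
  supp : ∀ Z, n Z ≠ 0 → Z ∈ Sp (bdf v univ)
  nat : ∀ (I : Type) [Fintype I] [DecidableEq I] (F : I → E → ZMod 2) (a : I → ZMod 2),
    Fintype.card I ≤ m → ∃ t : ℕ, ms n (fun Z => ∀ i, ip (F i) Z = a i) = t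

lemma ip_single (e : E) (Z : E → ZMod 2) : ip (Pi.single e 1) Z = Z e := by
  simp only [ip, Pi.single_apply, ite_mul, one_mul, zero_mul]
  rw [Finset.sum_ite_eq' Finset.univ e (fun i => Z i)]
  simp

lemma Q_empty {v : E × Bool → V} {n : (E → ZMod 2) → ℝ} {m : ℕ} (hn : Nice v n m) :
    Q v n ∅ := by
  obtain ⟨t, ht⟩ := hn.nat Empty (fun i => i.elim) (fun i => i.elim) (by simp)
  refine ⟨Fin t, inferInstance, fun _ => 0, fun _ _ _ => rfl, fun T => ?_, fun e he => by simp at he⟩
  have h1 : ∀ Z : E → ZMod 2, bd v ∅ Z = 0 := by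
    intro Z
    funext w
    have : bdf v ∅ w = 0 := by
      funext e
      simp [bdf]
    rw [bd, this]
    simp
  simp only [h1]
  by_cases hT : (0 : V → ZMod 2) = T
  · have h2 : cnt (fun _ : Fin t => (0 : V → ZMod 2) = T) = t := by
      simp [cnt, hT]
    rw [h2, ← ht]
    exact ms_congr fun Z _ => by simp [hT]
  · have h2 : cnt (fun _ : Fin t => (0 : V → ZMod 2) = T) = 0 := by
      simp [cnt, hT]
    rw [h2]
    simp [ms, hT]

lemma Q_single {v : E × Bool → V} {n : (E → ZMod 2) → ℝ} {m : ℕ} (hn : Nice v n m) (hm : 1 ≤ m)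
    (e : E) : Q v n {e} := by
  have h0 : ∀ b : ZMod 2, ∃ t : ℕ, ms n (fun Z => Z e = b) = t := by
    intro b
    obtain ⟨t, ht⟩ := hn.nat Unit (fun _ => Pi.single e 1) (fun _ => b) (by simpa using hm)
    refine ⟨t, ?_⟩
    rw [← ht]
    exact ms_congr fun Z _ => by simp [ip_single]
  choose t ht using h0
  have hbd : ∀ Z : E → ZMod 2, bd v {e} Z = fun w => bdf v {e} w e * Z e := by
    intro Z
    funext w
    simp only [bd, ip]
    refine (Finset.sum_eq_single e ?_ ?_).trans rfl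
    · intro b _ hb
      simp [bdf, hb]
    · intro h
      exact absurd (Finset.mem_univ e) h
  refine ⟨Σ b : ZMod 2, Fin (t b), inferInstance, fun x e' => if e' = e then x.1 else 0,
    fun j e' he' => by simpa using fun h => absurd h (by simpa using he'), fun T => ?_, ?_⟩
  · have h1 : cnt (fun x : Σ b : ZMod 2, Fin (t b) =>
        bd v {e} (fun e' => if e' = e then x.1 else 0) = T) =
        cnt (fun x : Σ b : ZMod 2, Fin (t b) => (fun w => bdf v {e} w e * x.1) = T) := by
      congr 1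
      funext x
      rw [hbd]
      simp
    rw [h1, cnt_sigma t (fun b => (fun w => bdf v {e} w e * b) = T)]
    have h2 := ms_sum n (fun Z => Z e) (fun b => (fun w => bdf v {e} w e * b) = T)
    simp only [hbd]
    rw [h2]
    push_cast
    refine Finset.sum_congr rfl fun b _ => ?_
    rw [ht]
    congr
  · intro e' he'
    rw [Finset.mem_singleton] at he'
    subst he'
    have h1 : cnt (fun x : Σ b : ZMod 2, Fin (t b) => (if e' = e' then x.1 else 0) = 1) =
        cnt (fun x : Σ b : ZMod 2, Fin (t b) => x.1 = 1) := by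
      congr 1
      funext x
      simp
    rw [h1, cnt_sigma t (fun b => b = 1), ht 1]
    simp

lemma bdf_union {v : E × Bool → V} {S1 S2 : Finset E} (hd : Disjoint S1 S2) (w : V) :
    bdf v (S1 ∪ S2) w = bdf v S1 w + bdf v S2 w := by
  funext e
  simp only [bdf, Pi.add_apply, Finset.mem_union]
  by_cases h1 : e ∈ S1
  · have h2 : e ∉ S2 := Finset.disjoint_left.mp hd h1
    simp [h1, h2]
  · simp [h1]

lemma bd_union {v : E × Bool → V} {S1 S2 : Finset E} (hd : Disjoint S1 S2) (Z : E → ZMod 2) :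
    bd v (S1 ∪ S2) Z = bd v S1 Z + bd v S2 Z := by
  funext w
  simp only [bd, Pi.add_apply, bdf_union hd, ip_add_left]

lemma bd_off {v : E × Bool → V} {S : Finset E} {Z : E → ZMod 2} (h : ∀ e ∈ S, Z e = 0) :
    bd v S Z = 0 := by
  funext w
  simp only [bd, ip, Pi.zero_apply]
  refine Finset.sum_eq_zero fun e _ => ?_
  by_cases he : e ∈ S
  · rw [h e he, mul_zero]
  · simp [bdf, he]

lemma bd_add {v : E × Bool → V} {S : Finset E} (Z Z' : E → ZMod 2) :
    bd v S (Z + Z') = bd v S Z + bd v S Z' := by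
  funext w
  simp only [bd, Pi.add_apply, ip_add_right]

/-- pair events have natural masses -/
lemma Nice.pair {v : E × Bool → V} {n : (E → ZMod 2) → ℝ} {m : ℕ} (hn : Nice v n m)
    {S1 S2 : Finset E} {A1 A2 : Finset V} (hA : A1.card + A2.card ≤ m) (h1 : Bd v S1 A1)
    (h2 : Bd v S2 A2) (T1 T2 : V → ZMod 2) :
    ∃ t : ℕ, ms n (fun Z => bd v S1 Z = T1 ∧ bd v S2 Z = T2) = t := by
  by_cases hT : (∀ w ∉ A1, T1 w = 0) ∧ ∀ w ∉ A2, T2 w = 0
  · obtain ⟨t, ht⟩ := hn.nat (A1 ⊕ A2)
      (Sum.elim (fun w => bdf v S1 w.1) (fun w => bdf v S2 w.1))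
      (Sum.elim (fun w => T1 w.1) (fun w => T2 w.1)) (by simpa using hA)
    refine ⟨t, ?_⟩
    rw [← ht]
    refine ms_congr fun Z hZ => ?_
    have hZ' := hn.supp Z hZ
    constructor
    · rintro ⟨a1, a2⟩ (i | i)
      · exact congrFun a1 i.1
      · exact congrFun a2 i.1
    · intro h
      constructor
      · funext w
        by_cases hw : w ∈ A1
        · exact h (Sum.inl ⟨w, hw⟩)
        · rw [h1.zero hZ' hw, hT.1 w hw]
      · funext w
        by_cases hw : w ∈ A2
        · exact h (Sum.inr ⟨w, hw⟩)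
        · rw [h2.zero hZ' hw, hT.2 w hw]
  · refine ⟨0, ?_⟩
    rw [Nat.cast_zero]
    simp only [ms]
    refine Finset.sum_eq_zero fun Z _ => ?_
    by_cases hZ : n Z = 0
    · simp [hZ]
    · rw [if_neg]
      rintro ⟨rfl, rfl⟩
      exact hT ⟨fun w hw => h1.zero (hn.supp Z hZ) hw, fun w hw => h2.zero (hn.supp Z hZ) hw⟩

/-- **Joining two pieces.** -/
theorem Q_join {v : E × Bool → V} {n : (E → ZMod 2) → ℝ} {m : ℕ} (hn : Nice v n m)
    {S1 S2 : Finset E} {A1 A2 : Finset V} (hA : A1.card + A2.card ≤ m) (h1 : Bd v S1 A1)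
    (h2 : Bd v S2 A2) (hd : Disjoint S1 S2) (hQ1 : Q v n S1) (hQ2 : Q v n S2) :
    Q v n (S1 ∪ S2) := by
  obtain ⟨ι1, _, τ1, a1, b1, c1⟩ := hQ1
  obtain ⟨ι2, _, τ2, a2, b2, c2⟩ := hQ2
  have hpair : ∀ p : (V → ZMod 2) × (V → ZMod 2), ∃ t : ℕ,
      ms n (fun Z => (bd v S1 Z, bd v S2 Z) = p) = t := by
    rintro ⟨T1, T2⟩
    obtain ⟨t, ht⟩ := hn.pair hA h1 h2 T1 T2
    refine ⟨t, ?_⟩
    rw [← ht]
    exact ms_congr fun Z _ => by simp
  choose t ht using hpair
  have key : ∀ P : (V → ZMod 2) × (V → ZMod 2) → Prop,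
      (cnt (fun x : Σ p, Fin (t p) => P x.1) : ℝ) =
        ms n (fun Z => P (bd v S1 Z, bd v S2 Z)) := by
    intro P
    rw [cnt_sigma t P, ms_sum n (fun Z => (bd v S1 Z, bd v S2 Z)) P]
    push_cast
    refine Finset.sum_congr rfl fun p _ => ?_
    rw [ht]
  have f1 : ∀ T, Nat.card {x : Σ p, Fin (t p) // x.1.1 = T} =
      Nat.card {j : ι1 // bd v S1 (τ1 j) = T} := by
    intro T
    have e1 := key (fun p => p.1 = T)
    have e2 := b1 T
    rw [← e1] at e2
    have e3 : cnt (fun j => bd v S1 (τ1 j) = T) =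
        cnt (fun x : Σ p, Fin (t p) => x.1.1 = T) := by exact_mod_cast e2
    rw [card_cnt, card_cnt]
    exact e3.symm
  have f2 : ∀ T, Nat.card {x : Σ p, Fin (t p) // x.1.2 = T} =
      Nat.card {j : ι2 // bd v S2 (τ2 j) = T} := by
    intro T
    have e1 := key (fun p => p.2 = T)
    have e2 := b2 T
    rw [← e1] at e2
    have e3 : cnt (fun j => bd v S2 (τ2 j) = T) =
        cnt (fun x : Σ p, Fin (t p) => x.1.2 = T) := by exact_mod_cast e2
    rw [card_cnt, card_cnt]
    exact e3.symm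
  let σ1 : (Σ p, Fin (t p)) ≃ ι1 := Equiv.ofFiberEquiv (f := fun x => x.1.1)
    (g := fun j => bd v S1 (τ1 j)) (fun T => eqv (f1 T))
  let σ2 : (Σ p, Fin (t p)) ≃ ι2 := Equiv.ofFiberEquiv (f := fun x => x.1.2)
    (g := fun j => bd v S2 (τ2 j)) (fun T => eqv (f2 T))
  have g1 : ∀ x, bd v S1 (τ1 (σ1 x)) = x.1.1 := fun x =>
    Equiv.ofFiberEquiv_map (f := fun x : Σ p, Fin (t p) => x.1.1)
      (g := fun j => bd v S1 (τ1 j)) (fun T => eqv (f1 T)) x
  have g2 : ∀ x, bd v S2 (τ2 (σ2 x)) = x.1.2 := fun x =>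
    Equiv.ofFiberEquiv_map (f := fun x : Σ p, Fin (t p) => x.1.2)
      (g := fun j => bd v S2 (τ2 j)) (fun T => eqv (f2 T)) x
  have hb : ∀ x, bd v (S1 ∪ S2) (τ1 (σ1 x) + τ2 (σ2 x)) = x.1.1 + x.1.2 := by
    intro x
    rw [bd_union hd, bd_add, bd_add, g1, g2,
      bd_off (Z := τ2 (σ2 x)) (fun e he => a2 _ e (Finset.disjoint_left.mp hd he)),
      bd_off (Z := τ1 (σ1 x)) (fun e he => a1 _ e (Finset.disjoint_right.mp hd he)),
      add_zero, zero_add]
  refine ⟨Σ p, Fin (t p), inferInstance, fun x => τ1 (σ1 x) + τ2 (σ2 x), ?_, ?_, ?_⟩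
  · intro x e he
    rw [Finset.mem_union, not_or] at he
    change τ1 (σ1 x) e + τ2 (σ2 x) e = 0
    rw [a1 _ e he.1, a2 _ e he.2, add_zero]
  · intro T
    simp only [hb]
    rw [key (fun p => p.1 + p.2 = T)]
    exact ms_congr fun Z _ => by rw [bd_union hd]
  · intro e he
    rcases Finset.mem_union.mp he with he1 | he2
    · have he2 : e ∉ S2 := Finset.disjoint_left.mp hd he1
      have h3 : ∀ x, (τ1 (σ1 x) + τ2 (σ2 x)) e = τ1 (σ1 x) e := fun x => by
        rw [Pi.add_apply, a2 _ e he2, add_zero]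
      simp only [h3]
      rw [cnt_equiv σ1 (fun j => τ1 j e = 1)]
      exact c1 e he1
    · have he1 : e ∉ S1 := Finset.disjoint_right.mp hd he2
      have h3 : ∀ x, (τ1 (σ1 x) + τ2 (σ2 x)) e = τ2 (σ2 x) e := fun x => by
        rw [Pi.add_apply, a1 _ e he1, zero_add]
      simp only [h3]
      rw [cnt_equiv σ2 (fun j => τ2 j e = 1)]
      exact c2 e he2

end Pool.Agent.U389.FR
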