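import Pool.Agent.U389.FR.Tok
import Pool.Agent.U389.BN.TD

set_option autoImplicit false
set_option linter.unusedSectionVars false

/-!
Merging the pieces of a tree decomposition.
-/

namespace Pool.Agent.U389.FR

open Finset
open scoped Classical

variable {V E : Type} [Fintype V] [DecidableEq V] [Fintype E] [DecidableEq E] {N : Type*}

/-- Merge all pieces of a tree decomposition. -/
theorem Q_merge {v : E × Bool → V} {n : (E → ZMod 2) → ℝ} {m : ℕ} (hn : Nice v n m)
    {T : SimpleGraph N} (hT : T.IsAcyclic)
    (B : N → Finset V) (hB : ∀ w, (T.induce {x | w ∈ B x}).Preconnected)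
    (hcard : ∀ x y, (B x).card + (B y).card ≤ m) (k : ℕ) :
    ∀ (U : Finset N), U.card = k + 1 → (T.induce (U : Set N)).Connected →
    ∀ (S : N → Finset E),
      (∀ x ∈ U, Q v n (S x)) →
      (∀ x ∈ U, Bd v (S x) (B x)) →
      (∀ x ∈ U, ∀ y ∈ U, x ≠ y → Disjoint (S x) (S y)) →
      (∀ e, ∃ x ∈ U, e ∈ S x) →
      Q v n univ := by
  induction k with
  | zero =>
    intro U hU _ S h1 _ _ h4
    obtain ⟨x, rfl⟩ := Finset.card_eq_one.mp hU
    have : S x = univ := by
      refine Finset.eq_univ_of_forall fun e => ?_
      obtain ⟨y, hy, he⟩ := h4 e
      rw [Finset.mem_singleton] at hy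
      rwa [hy] at he
    rw [← this]
    exact h1 x (by simp)
  | succ k ih =>
    intro U hU hconn S h1 h2 h3 h4
    have hnt : Nontrivial (U : Set N) := by
      rw [Set.nontrivial_coe_sort]
      have : 1 < U.card := by omega
      exact Finset.one_lt_card_iff_nontrivial.mp this
    obtain ⟨⟨x, hxU⟩, hx⟩ :=
      hconn.exists_connected_induce_compl_singleton_of_finite_nontrivial
    have hxU' : x ∈ U := by simpa using hxU
    obtain ⟨⟨y, hyU⟩, hxy⟩ := hconn.preconnected.exists_adj_of_nontrivial ⟨x, hxU⟩
    have hyU' : y ∈ U := by simpa using hyU
    have hxy' : T.Adj x y := hxy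
    have hne : x ≠ y := hxy'.ne
    have hconn' : (T.induce ((U.erase x : Finset N) : Set N)).Connected := by
      let φ : ((T.induce (U : Set N)).induce {(⟨x, hxU⟩ : (U : Set N))}ᶜ) →g
          T.induce ((U.erase x : Finset N) : Set N) :=
        { toFun := fun z => ⟨z.1.1, by
            have hz1 := z.1.2
            have hz2 := z.2
            simp only [Set.mem_compl_iff, Set.mem_singleton_iff] at hz2
            simp only [Finset.coe_erase, Set.mem_sdiff, Set.mem_singleton_iff]
            refine ⟨hz1, fun h => hz2 (Subtype.ext h)⟩⟩
          map_rel' := by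
            rintro p q hpq
            exact hpq }
      refine SimpleGraph.Connected.map φ ?_ hx
      rintro ⟨z, hz⟩
      have hz' : z ∈ U ∧ z ≠ x := by simpa [and_comm] using hz
      refine ⟨⟨⟨z, by simpa using hz'.1⟩, ?_⟩, rfl⟩
      simp only [Set.mem_compl_iff, Set.mem_singleton_iff, Subtype.mk.injEq]
      exact hz'.2
    -- key separation property
    have hkey : ∀ z ∈ U, z ≠ x → ∀ w, w ∈ B x → w ∈ B z → w ∈ B y := by
      intro z hzU hzx w hvx hvz
      have := BN.tree_sep hT hxy' (hB w) hconn'.preconnected (z := z) hvx hvz
        (by simp [hyU', hne.symm]) (by simp [hzU, hzx]) (by simp)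
      exact this
    refine ih (U.erase x) (by rw [Finset.card_erase_of_mem hxU']; omega) hconn'
      (fun z => if z = y then S x ∪ S y else S z) ?_ ?_ ?_ ?_
    · intro z hz
      obtain ⟨hzx, hzU⟩ := Finset.mem_erase.mp hz
      by_cases hzy : z = y
      · subst hzy
        simp only [if_true]
        exact Q_join hn (hcard x z) (h2 x hxU') (h2 z hzU) (h3 x hxU' z hzU hne) (h1 x hxU')
          (h1 z hzU)
      · simp only [if_neg hzy]
        exact h1 z hzU
    · intro z hz
      obtain ⟨hzx, hzU⟩ := Finset.mem_erase.mp hz
      by_cases hzy : z = y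
      · subst hzy
        simp only [if_true]
        intro w hw
        by_cases hwx : w ∈ B x
        · by_cases hall : ∀ e, (v (e, false) = w ∨ v (e, true) = w) → e ∈ S x
          · left
            intro e he
            exact Finset.mem_union_left _ (hall e he)
          · push Not at hall
            obtain ⟨e0, he0, he0x⟩ := hall
            obtain ⟨z', hz'U, he0z'⟩ := h4 e0
            have hz'x : z' ≠ x := by
              rintro rfl
              exact he0x he0z'
            have hwz' : w ∉ B z' := fun h => hw (hkey z' hz'U hz'x w hwx h)
            rcases h2 z' hz'U w hwz' with h5 | h5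
            · by_cases hzz : z' = z
              · subst hzz
                left
                intro e he
                exact Finset.mem_union_right _ (h5 e he)
              · right
                intro e he
                rw [Finset.mem_union, not_or]
                exact ⟨Finset.disjoint_left.mp (h3 z' hz'U x hxU' hz'x) (h5 e he),
                  Finset.disjoint_left.mp (h3 z' hz'U z hzU hzz) (h5 e he)⟩
            · exact absurd he0z' (h5 e0 he0)
        · rcases h2 x hxU' w hwx with h5 | h5
          · left
            intro e he
            exact Finset.mem_union_left _ (h5 e he)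
          · rcases h2 z hzU w hw with h6 | h6
            · left
              intro e he
              exact Finset.mem_union_right _ (h6 e he)
            · right
              intro e he
              rw [Finset.mem_union, not_or]
              exact ⟨h5 e he, h6 e he⟩
      · simp only [if_neg hzy]
        exact h2 z hzU
    · intro z hz z' hz' hzz
      obtain ⟨hzx, hzU⟩ := Finset.mem_erase.mp hz
      obtain ⟨hzx', hzU'⟩ := Finset.mem_erase.mp hz'
      by_cases hzy : z = y
      · subst hzy
        simp only [if_true, if_neg hzz.symm]
        rw [Finset.disjoint_union_left]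
        exact ⟨h3 x hxU' z' hzU' hzx'.symm, h3 z hzU z' hzU' hzz⟩
      · by_cases hzy' : z' = y
        · subst hzy'
          simp only [if_true, if_neg hzy]
          rw [Finset.disjoint_union_right]
          exact ⟨h3 z hzU x hxU' hzx, h3 z hzU z' hzU' hzz⟩
        · simp only [if_neg hzy, if_neg hzy']
          exact h3 z hzU z' hzU' hzz
    · intro e
      obtain ⟨z, hzU, he⟩ := h4 e
      by_cases hzx : z = x
      · subst hzx
        exact ⟨y, by simp [hyU', hne.symm], by simp [he]⟩
      · refine ⟨z, by simp [hzU, hzx], ?_⟩
        by_cases hzy : z = y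
        · subst hzy
          simp [he]
        · simp [hzy, he]

/-- All edges in one bag. -/
theorem Q_bag {v : E × Bool → V} {n : (E → ZMod 2) → ℝ} {m : ℕ} (hn : Nice v n m)
    (B : Finset V) (hB : B.card + 2 ≤ m) (S : Finset E)
    (hS : ∀ e ∈ S, v (e, false) ∈ B ∧ v (e, true) ∈ B) : Q v n S := by
  induction S using Finset.induction_on with
  | empty => exact Q_empty hn
  | insert e S he ih =>
    have ih' := ih fun e' he' => hS e' (Finset.mem_insert_of_mem he')
    have hc : ({v (e, false), v (e, true)} : Finset V).card ≤ 2 := Finset.card_le_two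
    rw [Finset.insert_eq]
    refine Q_join hn (A1 := {v (e, false), v (e, true)}) (A2 := B) (by omega) ?_ ?_
      (by simpa using he) (Q_single hn (by omega) e) ih'
    · intro w hw
      right
      intro e' he' h
      rw [Finset.mem_singleton] at h
      subst h
      apply hw
      rcases he' with rfl | rfl <;> simp
    · intro w hw
      right
      intro e' he' h
      have := hS e' (Finset.mem_insert_of_mem h)
      rcases he' with rfl | rfl
      · exact hw this.1
      · exact hw this.2

/-- The rounded measure is realised by a family, for a graph with a tree decomposition. -/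
theorem Q_univ {v : E × Bool → V} {n : (E → ZMod 2) → ℝ} {m : ℕ} (hn : Nice v n m)
    [Fintype N] {T : SimpleGraph N} (hT : T.IsTree)
    (B : N → Finset V) (hB : ∀ w, (T.induce {x | w ∈ B x}).Preconnected)
    (hcard : ∀ x, 2 * (B x).card ≤ m) (hm : ∀ x, (B x).card + 2 ≤ m)
    (hedge : ∀ e, ∃ x, v (e, false) ∈ B x ∧ v (e, true) ∈ B x) : Q v n univ := by
  choose asg hasg using hedge
  have hne : Nonempty N := hT.connected.nonempty
  have hcardN : 0 < Fintype.card N := Fintype.card_pos
  have hconn : (T.induce ((Finset.univ : Finset N) : Set N)).Connected := by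
    let φ : T →g T.induce ((Finset.univ : Finset N) : Set N) :=
      { toFun := fun z => ⟨z, by simp⟩
        map_rel' := fun h => h }
    refine SimpleGraph.Connected.map φ ?_ hT.connected
    rintro ⟨z, hz⟩
    exact ⟨z, rfl⟩
  refine Q_merge hn hT.isAcyclic B hB (fun x y => by have := hcard x; have := hcard y; omega)
    (Fintype.card N - 1) Finset.univ (by rw [Finset.card_univ]; omega) hconn
    (fun x => Finset.univ.filter (fun e => asg e = x)) ?_ ?_ ?_ ?_
  · intro x _
    refine Q_bag hn (B x) (hm x) _ fun e he => ?_
    rw [Finset.mem_filter] at he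
    rw [← he.2]
    exact hasg e
  · intro x _ w hw
    right
    intro e he h
    rw [Finset.mem_filter] at h
    have := hasg e
    rw [h.2] at this
    rcases he with rfl | rfl
    · exact hw this.1
    · exact hw this.2
  · intro x _ y _ hxy
    rw [Finset.disjoint_left]
    intro e h1 h2
    rw [Finset.mem_filter] at h1 h2
    exact hxy (h1.2.symm.trans h2.2)
  · intro e
    exact ⟨asg e, Finset.mem_univ _, by simp⟩

end Pool.Agent.U389.FR
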